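import Pool.Agent.MP_ca0a54_nt.H78M.MER

/-! Sums over subsets of a set of primes: product bounds and pinned primes. -/

open Finset

namespace Pool.Agent.MP_ca0a54_nt.H29S

open Pool.Agent.MP_ca0a54_nt.H78M

/-- The logarithm of the product of a set. -/
noncomputable def lg (T : Finset ℕ) : ℝ := ∑ q ∈ T, Real.log q

/-- The probability that `T` is the set of primes of `P` that divide a random integer. -/
noncomputable def pi (P T : Finset ℕ) : ℝ :=
  (∏ q ∈ T, (q : ℝ)⁻¹) * ∏ q ∈ P \ T, (1 - (q : ℝ)⁻¹)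

/-- A multiplicative weight. -/
noncomputable def W (u : ℝ) (T : Finset ℕ) : ℝ := ∏ q ∈ T, u / ((q : ℝ) - 1)

/-- The sum of the reciprocals. -/
noncomputable def Jm (P : Finset ℕ) : ℝ := ∑ q ∈ P, (q : ℝ)⁻¹

/-- The total weight. -/
noncomputable def Zt (u : ℝ) (P : Finset ℕ) : ℝ := ∑ T ∈ P.powerset, W u T

theorem lg_nonneg (T : Finset ℕ) : 0 ≤ lg T :=
  sum_nonneg fun q _ => Real.log_natCast_nonneg q

theorem log_le_lg {T : Finset ℕ} {q : ℕ} (h : q ∈ T) : Real.log q ≤ lg T :=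
  single_le_sum (f := fun q : ℕ => Real.log q) (fun q _ => Real.log_natCast_nonneg q) h

theorem Jm_nonneg (P : Finset ℕ) : 0 ≤ Jm P := sum_nonneg fun q _ => by positivity

theorem Jm_mono {P P' : Finset ℕ} (h : P ⊆ P') : Jm P ≤ Jm P' :=
  sum_le_sum_of_subset_of_nonneg h fun q _ _ => by positivity

theorem cast_two {q : ℕ} (h : 2 ≤ q) : (2 : ℝ) ≤ q := by exact_mod_cast h

theorem W_nonneg {u : ℝ} (hu : 0 ≤ u) {T : Finset ℕ} (h : ∀ q ∈ T, 2 ≤ q) : 0 ≤ W u T :=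
  prod_nonneg fun q hq => div_nonneg hu (by linarith [cast_two (h q hq)])

theorem W_nonneg' {u : ℝ} (hu : 0 ≤ u) {P T : Finset ℕ} (h : ∀ q ∈ P, 2 ≤ q)
    (hT : T ∈ P.powerset) : 0 ≤ W u T :=
  W_nonneg hu fun q hq => h q (mem_powerset.1 hT hq)

theorem W_empty (u : ℝ) : W u ∅ = 1 := prod_empty

theorem W_mul (u v : ℝ) (T : Finset ℕ) : W (u * v) T = u ^ T.card * W v T := by
  unfold W
  rw [← prod_const, ← prod_mul_distrib]
  exact prod_congr rfl fun q _ => by ring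

theorem W_union (u : ℝ) {S T : Finset ℕ} (h : Disjoint S T) : W u (S ∪ T) = W u S * W u T :=
  prod_union h

theorem lg_union {S T : Finset ℕ} (h : Disjoint S T) : lg (S ∪ T) = lg S + lg T := sum_union h

theorem pi_nonneg {P T : Finset ℕ} (h : ∀ q ∈ P, 2 ≤ q) : 0 ≤ pi P T := by
  refine mul_nonneg (prod_nonneg fun q _ => by positivity) (prod_nonneg fun q hq => ?_)
  have := cast_two (h q (mem_sdiff.1 hq).1)
  have : (q : ℝ)⁻¹ ≤ 1 := inv_le_one_of_one_le₀ (by linarith)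
  linarith

theorem Zt_nonneg {u : ℝ} (hu : 0 ≤ u) {P : Finset ℕ} (h : ∀ q ∈ P, 2 ≤ q) : 0 ≤ Zt u P :=
  sum_nonneg fun _ hT => W_nonneg' hu h hT

theorem sum_sq_le {P : Finset ℕ} (h : ∀ q ∈ P, 2 ≤ q) : ∑ q ∈ P, ((q : ℝ) ^ 2)⁻¹ ≤ 1 := by
  have hs : P ⊆ Ioo 1 (P.sup id + 1) := fun q hq =>
    mem_Ioo.2 ⟨h q hq, Nat.lt_succ_of_le (le_sup (f := id) hq)⟩
  have e : Ioo 1 (P.sup id + 1) = Ioc 1 (P.sup id) := by
    ext q
    simp only [mem_Ioo, mem_Ioc, Nat.lt_succ_iff]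
  refine (sum_le_sum_of_subset_of_nonneg hs fun q _ _ => by positivity).trans ?_
  rw [e]
  rcases Nat.eq_zero_or_pos (P.sup id) with h0 | h0
  · simp [h0]
  · have := sum_Ioc_inv_sq_le_sub (α := ℝ) one_ne_zero h0
    have h1 : (0 : ℝ) ≤ ((P.sup id : ℕ) : ℝ)⁻¹ := by positivity
    simp only [Nat.cast_one, inv_one] at this
    linarith

theorem Zt_le {u : ℝ} (hu : 0 ≤ u) {P : Finset ℕ} (h : ∀ q ∈ P, 2 ≤ q) :
    Zt u P ≤ Real.exp (u * Jm P + 2 * u) := by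
  have e : Zt u P = ∏ q ∈ P, (1 + u / ((q : ℝ) - 1)) := (prod_one_add P).symm
  have h1 : ∏ q ∈ P, (1 + u / ((q : ℝ) - 1)) ≤
      ∏ q ∈ P, Real.exp (u * (q : ℝ)⁻¹ + 2 * u * ((q : ℝ) ^ 2)⁻¹) := by
    refine prod_le_prod (fun q hq => ?_) fun q hq => ?_
    · have := cast_two (h q hq)
      have : 0 ≤ u / ((q : ℝ) - 1) := div_nonneg hu (by linarith)
      linarith
    · have h2 := cast_two (h q hq)
      refine le_trans ?_ (Real.add_one_le_exp _)
      have h3 : u / ((q : ℝ) - 1) ≤ u * (q : ℝ)⁻¹ + 2 * u * ((q : ℝ) ^ 2)⁻¹ := by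
        rw [div_le_iff₀ (by linarith)]
        have e1 : (u * (q : ℝ)⁻¹ + 2 * u * ((q : ℝ) ^ 2)⁻¹) * ((q : ℝ) - 1) =
            u + u * (((q : ℝ) - 2) * ((q : ℝ) ^ 2)⁻¹) := by
          field_simp
          ring
        have : 0 ≤ u * (((q : ℝ) - 2) * ((q : ℝ) ^ 2)⁻¹) :=
          mul_nonneg hu (mul_nonneg (by linarith) (by positivity))
        linarith
      linarith
  rw [e]
  refine h1.trans ?_
  rw [← Real.exp_sum, sum_add_distrib, ← mul_sum, ← mul_sum]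
  refine Real.exp_le_exp.2 ?_
  have := mul_le_mul_of_nonneg_left (sum_sq_le h) (by positivity : 0 ≤ 2 * u)
  unfold Jm
  linarith

theorem exp_le_prod {a : ℝ} (ha : 0 ≤ a) {P : Finset ℕ} (h : ∀ q ∈ P, 2 ≤ q) :
    Real.exp (a * Jm P) ≤ Real.exp (a ^ 2) * ∏ q ∈ P, (1 + a / q) := by
  have h1 : ∏ q ∈ P, Real.exp (a * (q : ℝ)⁻¹ - a ^ 2 * ((q : ℝ) ^ 2)⁻¹) ≤
      ∏ q ∈ P, (1 + a / q) := by
    refine prod_le_prod (fun q _ => (Real.exp_pos _).le) fun q hq => ?_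
    have h2 := cast_two (h q hq)
    have h3 : 0 ≤ a / q := by positivity
    have e : a * (q : ℝ)⁻¹ - a ^ 2 * ((q : ℝ) ^ 2)⁻¹ = a / q - (a / q) ^ 2 := by
      field_simp
    rw [e]
    generalize a / q = t at h3
    have h4 := Real.add_one_le_exp (-(t - t ^ 2))
    have h5 := Real.exp_pos (t - t ^ 2)
    have h6 : Real.exp (t - t ^ 2) * Real.exp (-(t - t ^ 2)) = 1 := by
      rw [← Real.exp_add]
      simp
    have h7 : 1 ≤ (1 + t) * (-(t - t ^ 2) + 1) := by nlinarith [pow_nonneg h3 3]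
    have h8 : Real.exp (t - t ^ 2) * (-(t - t ^ 2) + 1) ≤ 1 :=
      (mul_le_mul_of_nonneg_left h4 h5.le).trans h6.le
    have h9 : 0 < -(t - t ^ 2) + 1 := by nlinarith [sq_nonneg (t - 1 / 2)]
    exact le_of_mul_le_mul_right (h8.trans h7) h9
  rw [← Real.exp_sum, sum_sub_distrib, ← mul_sum, ← mul_sum] at h1
  refine le_trans ?_ (mul_le_mul_of_nonneg_left h1 (Real.exp_pos _).le)
  rw [← Real.exp_add]
  refine Real.exp_le_exp.2 ?_
  have := mul_le_mul_of_nonneg_left (sum_sq_le h) (sq_nonneg a)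
  unfold Jm
  linarith

/-- The mean of `β ^ |T|` over the sets that contain `U`. -/
theorem expect {β : ℝ} (h0 : 0 ≤ β) {P U : Finset ℕ} (h : ∀ q ∈ P, 2 ≤ q)
    (hU : U ⊆ P) :
    ∑ T ∈ P.powerset, (if U ⊆ T then pi P T * β ^ T.card else 0) ≤
      Real.exp (-((1 - β) * Jm P)) * W β U := by
  have e := prod_add (fun q : ℕ => (q : ℝ)⁻¹ * β)
    (fun q : ℕ => if q ∈ U then (0 : ℝ) else 1 - (q : ℝ)⁻¹) P
  have e2 : ∀ T ∈ P.powerset, (if U ⊆ T then pi P T * β ^ T.card else 0) =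
      (∏ q ∈ T, (q : ℝ)⁻¹ * β) * ∏ q ∈ P \ T, if q ∈ U then (0 : ℝ) else 1 - (q : ℝ)⁻¹ := by
    intro T _
    split_ifs with hT
    · rw [prod_mul_distrib, prod_const, pi,
        prod_congr rfl fun q hq => if_neg fun hq' => (mem_sdiff.1 hq).2 (hT hq')]
      ring
    · obtain ⟨q, hq, hq'⟩ := not_subset.1 hT
      rw [prod_eq_zero (f := fun q : ℕ => if q ∈ U then (0 : ℝ) else 1 - (q : ℝ)⁻¹)
        (mem_sdiff.2 ⟨hU hq, hq'⟩) (if_pos hq), mul_zero]
  have e3 : W β U = ∏ q ∈ P, if q ∈ U then β / ((q : ℝ) - 1) else 1 := by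
    rw [prod_ite_mem, inter_eq_right.2 hU, W]
  have e4 : -((1 - β) * Jm P) = ∑ q ∈ P, -((1 - β) * (q : ℝ)⁻¹) := by
    rw [sum_neg_distrib, ← mul_sum, Jm]
  rw [sum_congr rfl e2, ← e, e3, e4, Real.exp_sum, ← prod_mul_distrib]
  refine prod_le_prod (fun q hq => ?_) fun q hq => ?_
  · have h2 := cast_two (h q hq)
    have h3 : (q : ℝ)⁻¹ ≤ 1 := inv_le_one_of_one_le₀ (by linarith)
    have h4 : 0 ≤ (q : ℝ)⁻¹ * β := by positivity
    split_ifs <;> linarith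
  · have h2 := cast_two (h q hq)
    have h3 := Real.add_one_le_exp (-((1 - β) * (q : ℝ)⁻¹))
    have h4 : 0 ≤ (q : ℝ)⁻¹ * β := by positivity
    split_ifs
    · have h5 : 0 ≤ β / ((q : ℝ) - 1) := div_nonneg h0 (by linarith)
      have h6 : (1 - (q : ℝ)⁻¹) * (β / ((q : ℝ) - 1)) = (q : ℝ)⁻¹ * β := by
        have : (q : ℝ) - 1 ≠ 0 := by linarith
        field_simp
      rw [add_zero, ← h6]
      exact mul_le_mul_of_nonneg_right (by linarith) h5
    · linarith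

/-- A sum along an injection. -/
theorem sum_le_inj {α β : Type*} [DecidableEq β] {s : Finset α} {t : Finset β} (i : α → β)
    {f : α → ℝ} {g : β → ℝ} (hi : Set.InjOn i s) (ht : ∀ a ∈ s, i a ∈ t)
    (hf : ∀ a ∈ s, f a ≤ g (i a)) (hg : ∀ b ∈ t, 0 ≤ g b) : ∑ a ∈ s, f a ≤ ∑ b ∈ t, g b := by
  refine (sum_le_sum hf).trans ?_
  rw [← sum_image hi]
  exact sum_le_sum_of_subset_of_nonneg (image_subset_iff.2 ht) fun b hb _ => hg b hb

/-- One prime is taken out of the set. -/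
theorem pin {u : ℝ} (hu : 0 ≤ u) {P : Finset ℕ} (h : ∀ q ∈ P, 2 ≤ q) (φ : Finset ℕ → ℕ → ℝ)
    (hφ : ∀ B q, 0 ≤ φ B q) :
    ∑ T ∈ P.powerset, W u T * ∑ q ∈ T, φ (T.erase q) q ≤
      ∑ B ∈ P.powerset, W u B * ∑ q ∈ P, u / ((q : ℝ) - 1) * φ B q := by
  simp only [mul_sum]
  rw [sum_sigma', ← sum_product']
  refine sum_le_inj (fun z => (z.1.erase z.2, z.2)) ?_ ?_ ?_ ?_
  · rintro ⟨T, q⟩ hz ⟨T', q'⟩ hz' hh
    simp only [Prod.mk.injEq] at hh
    obtain ⟨h1, rfl⟩ := hh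
    have a1 : q ∈ T := (mem_sigma.1 (mem_coe.1 hz)).2
    have a2 : q ∈ T' := (mem_sigma.1 (mem_coe.1 hz')).2
    have : T = T' := by rw [← insert_erase a1, h1, insert_erase a2]
    subst this
    rfl
  · rintro ⟨T, q⟩ hz
    obtain ⟨a1, a2⟩ := mem_sigma.1 hz
    exact mem_product.2 ⟨mem_powerset.2 ((erase_subset _ _).trans (mem_powerset.1 a1)),
      mem_powerset.1 a1 a2⟩
  · rintro ⟨T, q⟩ hz
    have a2 := (mem_sigma.1 hz).2
    have e : W u T = u / ((q : ℝ) - 1) * W u (T.erase q) :=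
      (mul_prod_erase T (fun q : ℕ => u / ((q : ℝ) - 1)) a2).symm
    simp only
    rw [e]
    exact le_of_eq (by ring)
  · rintro ⟨B, q⟩ hz
    obtain ⟨a1, a2⟩ := mem_product.1 hz
    exact mul_nonneg (W_nonneg' hu h a1)
      (mul_nonneg (div_nonneg hu (by linarith [cast_two (h q a2)])) (hφ _ _))

/-- The logarithmic mass of the primes in a window. -/
def Win (K : ℝ) : Prop := ∀ (P : Finset ℕ) (c : ℝ), (∀ q ∈ P, q.Prime) →
  ∑ q ∈ P, ((q : ℝ) - 1)⁻¹ *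
    (if c ≤ Real.log q ∧ Real.log q ≤ c + 2 then Real.log q else 0) ≤ K

theorem win : ∃ K : ℝ, 1 ≤ K ∧ Win K := by
  obtain ⟨D, hD, h⟩ := MER.mass
  refine ⟨2 * (3 + D), by linarith, fun P c hP => ?_⟩
  have h1 := (abs_le.1 (h (max (c - 1) 0) (max (c - 1) 0 + 3) (le_max_right _ _)
    (by linarith))).2
  have h2 : ∑ q ∈ P, ((q : ℝ) - 1)⁻¹ *
      (if c ≤ Real.log q ∧ Real.log q ≤ c + 2 then Real.log q else 0) ≤
      ∑ q ∈ P.filter (fun q : ℕ => c ≤ Real.log q ∧ Real.log q ≤ c + 2),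
        2 * (Real.log q / q) := by
    rw [sum_filter]
    refine sum_le_sum fun q hq => ?_
    have h3 := cast_two (hP q hq).two_le
    split_ifs
    · have h4 : ((q : ℝ) - 1)⁻¹ ≤ 2 / q := by
        rw [inv_eq_one_div, div_le_div_iff₀ (by linarith) (by linarith)]
        linarith
      have := mul_le_mul_of_nonneg_right h4 (Real.log_natCast_nonneg q)
      refine this.trans (le_of_eq (by ring))
    · simp
  refine h2.trans ?_
  rw [← mul_sum]
  refine mul_le_mul_of_nonneg_left (le_trans (sum_le_sum_of_subset_of_nonneg (fun q hq => ?_)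
    fun q _ _ => MER.w_nonneg q) (by linarith : ∑ p ∈ pr (max (c - 1) 0) (max (c - 1) 0 + 3),
      Real.log p / p ≤ 3 + D)) two_pos.le
  obtain ⟨a1, a2, a3⟩ := mem_filter.1 hq
  have h3 := cast_two (hP q a1).two_le
  refine mem_pr.2 ⟨hP q a1, max_lt (by linarith) (Real.log_pos (by linarith)), ?_⟩
  linarith [le_max_left (c - 1) 0]

/-- The weight of a window, counted with the logarithm. -/
theorem pin_win {K u : ℝ} (hK : Win K) (hu : 0 ≤ u) {P : Finset ℕ} (h : ∀ q ∈ P, q.Prime)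
    (c : ℝ) :
    ∑ T ∈ P.powerset, W u T * (if c ≤ lg T ∧ lg T ≤ c + 2 then lg T else 0) ≤
      u * K * Zt u P := by
  have h2 : ∀ q ∈ P, 2 ≤ q := fun q hq => (h q hq).two_le
  have h3 := pin hu h2 (fun B q => if c - lg B ≤ Real.log q ∧ Real.log q ≤ c - lg B + 2 then
    Real.log q else 0) fun B q => by
      split_ifs
      exacts [Real.log_natCast_nonneg q, le_rfl]
  refine le_trans (le_of_eq (sum_congr rfl fun T _ => ?_)) (h3.trans ?_)
  · congr 1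
    have e : ∀ q ∈ T, (if c - lg (T.erase q) ≤ Real.log q ∧ Real.log q ≤ c - lg (T.erase q) + 2
        then Real.log q else 0) = if c ≤ lg T ∧ lg T ≤ c + 2 then Real.log q else 0 := by
      intro q hq
      have e1 : Real.log q + lg (T.erase q) = lg T :=
        add_sum_erase T (fun q : ℕ => Real.log q) hq
      refine if_congr ⟨fun hh => ⟨?_, ?_⟩, fun hh => ⟨?_, ?_⟩⟩ rfl rfl <;> linarith [hh.1, hh.2]
    rw [sum_congr rfl e]
    split_ifs
    · rfl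
    · simp
  · rw [Zt, mul_sum]
    refine sum_le_sum fun B hB => ?_
    rw [mul_comm (u * K)]
    refine mul_le_mul_of_nonneg_left ?_ (W_nonneg' hu h2 hB)
    refine le_trans (le_of_eq ?_) (mul_le_mul_of_nonneg_left (hK P (c - lg B) h) hu)
    rw [mul_sum]
    exact sum_congr rfl fun q _ => by rw [div_eq_mul_inv, mul_assoc]

/-- The weight of a window. -/
theorem win_le {K u : ℝ} (hK : Win K) (hu : 0 ≤ u) {P : Finset ℕ} (h : ∀ q ∈ P, q.Prime)
    {c : ℝ} (hc : 0 < c) :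
    ∑ T ∈ P.powerset, (if c ≤ lg T ∧ lg T ≤ c + 2 then W u T else 0) ≤ u * K / c * Zt u P := by
  have h2 : ∀ q ∈ P, 2 ≤ q := fun q hq => (h q hq).two_le
  rw [div_mul_eq_mul_div, le_div_iff₀ hc, sum_mul]
  refine le_trans (sum_le_sum fun T hT => ?_) (pin_win hK hu h c)
  split_ifs with hh
  · exact mul_le_mul_of_nonneg_left hh.1 (W_nonneg' hu h2 hT)
  · simp

end Pool.Agent.MP_ca0a54_nt.H29S
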