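import Pool.Agent.MP_ca0a54_nt.H29S.Basic

/-! The mean over one period of a function of the set of prime divisors. -/

open Finset

namespace Pool.Agent.MP_ca0a54_nt.H29S

/-- The primes of `P` that divide `n`. -/
def dv (P : Finset ℕ) (n : ℕ) : Finset ℕ := P.filter (· ∣ n)

theorem per_mul {h : ℕ → ℝ} {M : ℕ} (hp : ∀ n, h (n + M) = h n) (k n : ℕ) :
    h (n + M * k) = h n := by
  induction k with
  | zero => rfl
  | succ k ih => rw [Nat.mul_succ, ← add_assoc, hp, ih]

theorem per_mod {h : ℕ → ℝ} {M : ℕ} (hp : ∀ n, h (n + M) = h n) (n : ℕ) : h (n % M) = h n := by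
  conv_rhs => rw [← Nat.mod_add_div n M, per_mul hp]

theorem sum_shift {h : ℕ → ℝ} {M : ℕ} (hp : ∀ n, h (n + M) = h n) (c : ℕ) :
    ∑ n ∈ range M, h (n + c) = ∑ n ∈ range M, h n := by
  induction c with
  | zero => rfl
  | succ c ih =>
    have e1 := sum_range_succ (fun n => h (n + c)) M
    have e2 := sum_range_succ' (fun n => h (n + c)) M
    have e3 : h (M + c) = h (0 + c) := by rw [add_comm M c, hp, zero_add]
    have e4 : ∀ n, n + 1 + c = n + (c + 1) := fun n => by ring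
    simp only [e4] at e2
    linarith

theorem sum_per {h : ℕ → ℝ} {M : ℕ} (hp : ∀ n, h (n + M) = h n) (k : ℕ) :
    ∑ n ∈ range (M * k), h n = k * ∑ n ∈ range M, h n := by
  induction k with
  | zero => simp
  | succ k ih =>
    rw [Nat.mul_succ, sum_range_add, ih]
    have e : ∀ n, h (M * k + n) = h n := fun n => by rw [add_comm, per_mul hp]
    simp only [e]
    push_cast
    ring

theorem sum_coprime {h : ℕ → ℝ} {M q : ℕ} (hp : ∀ n, h (n + M) = h n) (hc : q.Coprime M) :
    ∑ n ∈ range M, h (q * n) = ∑ n ∈ range M, h n := by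
  rcases Nat.eq_zero_or_pos M with rfl | hM
  · simp
  have hi : Set.InjOn (fun n => q * n % M) (range M) := by
    intro a ha b hb hab
    have h1 : a ≡ b [MOD M] := Nat.ModEq.cancel_left_of_coprime hc.symm hab
    exact Nat.ModEq.eq_of_lt_of_lt h1 (mem_range.1 ha) (mem_range.1 hb)
  have hs : image (fun n => q * n % M) (range M) = range M :=
    eq_of_subset_of_card_le (image_subset_iff.2 fun n _ => mem_range.2 (Nat.mod_lt _ hM))
      (card_image_of_injOn hi).ge
  conv_rhs => rw [← hs, sum_image hi]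
  exact sum_congr rfl fun n _ => (per_mod hp _).symm

theorem sum_dvd {h : ℕ → ℝ} {M q : ℕ} (hp : ∀ n, h (n + M) = h n) (hc : q.Coprime M)
    (hq : 0 < q) :
    ∑ n ∈ range (M * q), (if q ∣ n then h n else 0) = ∑ n ∈ range M, h n := by
  rw [← sum_coprime hp hc, ← sum_filter]
  refine (sum_bij (fun m _ => q * m) (fun m hm => ?_) (fun a _ b _ h => ?_)
    (fun n hn => ?_) fun _ _ => rfl).symm
  · refine mem_filter.2 ⟨mem_range.2 ?_, dvd_mul_right _ _⟩
    rw [mul_comm M q]
    exact Nat.mul_lt_mul_of_pos_left (mem_range.1 hm) hq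
  · exact Nat.eq_of_mul_eq_mul_left hq h
  · obtain ⟨h1, m, rfl⟩ := mem_filter.1 hn
    refine ⟨m, mem_range.2 ?_, rfl⟩
    have h2 := mem_range.1 h1
    rw [mul_comm M q] at h2
    exact Nat.lt_of_mul_lt_mul_left h2

theorem dv_add {P : Finset ℕ} {M : ℕ} (hM : ∀ q ∈ P, q ∣ M) (n : ℕ) : dv P (n + M) = dv P n :=
  filter_congr fun q hq => (Nat.dvd_add_iff_left (hM q hq)).symm

theorem dv_subset (P : Finset ℕ) (n : ℕ) : dv P n ⊆ P := filter_subset _ _

theorem crt0 (P : Finset ℕ) (h : ∀ q ∈ P, q.Prime) (G : Finset ℕ → ℝ) :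
    ∑ n ∈ range (∏ q ∈ P, q), G (dv P n) =
      ((∏ q ∈ P, q : ℕ) : ℝ) * ∑ T ∈ P.powerset, pi P T * G T := by
  induction P using Finset.induction_on generalizing G with
  | empty => simp [dv, pi]
  | insert q P hq ih =>
    have hP : ∀ p ∈ P, p.Prime := fun p hp => h p (mem_insert_of_mem hp)
    have hqp := h q (mem_insert_self _ _)
    have hc : q.Coprime (∏ p ∈ P, p) := Nat.Coprime.prod_right fun p hp =>
      (Nat.coprime_primes hqp (hP p hp)).2 fun e => hq (e ▸ hp)
    have hd : ∀ p ∈ P, p ∣ ∏ p ∈ P, p := fun p hp => dvd_prod_of_mem _ hp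
    have e1 : ∀ n, G (dv (insert q P) n) =
        G (dv P n) + if q ∣ n then G (insert q (dv P n)) - G (dv P n) else 0 := by
      intro n
      unfold dv
      rw [filter_insert]
      split_ifs <;> ring
    have p1 : ∀ n, G (dv P (n + ∏ p ∈ P, p)) = G (dv P n) := fun n => by rw [dv_add hd]
    have p2 : ∀ n, G (insert q (dv P (n + ∏ p ∈ P, p))) - G (dv P (n + ∏ p ∈ P, p)) =
        G (insert q (dv P n)) - G (dv P n) := fun n => by rw [dv_add hd]
    have q0 : (q : ℝ) ≠ 0 := by exact_mod_cast hqp.ne_zero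
    have e2 : ∀ T ∈ P.powerset, pi (insert q P) T * G T = (1 - (q : ℝ)⁻¹) * (pi P T * G T) := by
      intro T hT
      have hT' : q ∉ T := fun hh => hq (mem_powerset.1 hT hh)
      unfold pi
      rw [insert_sdiff_of_notMem _ hT', prod_insert fun hh => hq (mem_sdiff.1 hh).1]
      ring
    have e3 : ∀ T ∈ P.powerset, pi (insert q P) (insert q T) * G (insert q T) =
        (q : ℝ)⁻¹ * (pi P T * G (insert q T)) := by
      intro T hT
      have hT' : q ∉ T := fun hh => hq (mem_powerset.1 hT hh)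
      unfold pi
      rw [prod_insert hT', insert_sdiff_insert, sdiff_insert_of_notMem hq]
      ring
    rw [prod_insert hq, mul_comm q, sum_congr rfl fun n _ => e1 n, sum_add_distrib,
      sum_per (h := fun n => G (dv P n)) p1,
      sum_dvd (h := fun n => G (insert q (dv P n)) - G (dv P n)) p2 hc hqp.pos, sum_sub_distrib,
      ih hP G, ih hP fun T => G (insert q T), sum_powerset_insert hq, sum_congr rfl e2,
      sum_congr rfl e3, ← mul_sum, ← mul_sum]
    push_cast
    field_simp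
    ring

/-- The mean over full periods, with a shift. -/
theorem crt {P : Finset ℕ} (h : ∀ q ∈ P, q.Prime) {N : ℕ} (hN : (∏ q ∈ P, q) ∣ N) (c : ℕ)
    (G : Finset ℕ → ℝ) :
    ∑ n ∈ range N, G (dv P (n + c)) = N * ∑ T ∈ P.powerset, pi P T * G T := by
  obtain ⟨k, rfl⟩ := hN
  have hd : ∀ p ∈ P, p ∣ ∏ p ∈ P, p := fun p hp => dvd_prod_of_mem _ hp
  have p1 : ∀ n, G (dv P (n + ∏ p ∈ P, p)) = G (dv P n) := fun n => by rw [dv_add hd]
  have p2 : ∀ n, G (dv P (n + (∏ p ∈ P, p) + c)) = G (dv P (n + c)) := fun n => by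
    rw [add_right_comm, dv_add hd]
  rw [sum_per (h := fun n => G (dv P (n + c))) p2, sum_shift (h := fun n => G (dv P n)) p1,
    crt0 P h G]
  push_cast
  ring

/-- The same with one more prime. -/
theorem crt_dvd {P : Finset ℕ} (h : ∀ q ∈ P, q.Prime) {p : ℕ} (hp : p.Prime) (hpP : p ∉ P)
    {N : ℕ} (hN : (∏ q ∈ P, q) * p ∣ N) (c : ℕ) (G : Finset ℕ → ℝ) :
    ∑ n ∈ range N, (if p ∣ n then G (dv P (n + c)) else 0) =
      N / p * ∑ T ∈ P.powerset, pi P T * G T := by
  obtain ⟨k, rfl⟩ := hN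
  have hd : ∀ q ∈ P, q ∣ ∏ q ∈ P, q := fun q hq => dvd_prod_of_mem _ hq
  have hc : p.Coprime (∏ q ∈ P, q) := Nat.Coprime.prod_right fun q hq =>
    (Nat.coprime_primes hp (h q hq)).2 fun e => hpP (e ▸ hq)
  have p2 : ∀ n, G (dv P (n + (∏ p ∈ P, p) + c)) = G (dv P (n + c)) := fun n => by
    rw [add_right_comm, dv_add hd]
  have p3 : ∀ n, (if p ∣ n + (∏ q ∈ P, q) * p then G (dv P (n + (∏ q ∈ P, q) * p + c)) else 0) =
      if p ∣ n then G (dv P (n + c)) else 0 := fun n =>
    if_congr (Nat.dvd_add_iff_left (dvd_mul_left _ _)).symm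
      (per_mul (h := fun n => G (dv P (n + c))) p2 p n) rfl
  have q0 : (p : ℝ) ≠ 0 := by exact_mod_cast hp.ne_zero
  rw [sum_per (h := fun n => if p ∣ n then G (dv P (n + c)) else 0) p3,
    sum_dvd (h := fun n => G (dv P (n + c))) p2 hc hp.pos, crt h dvd_rfl]
  push_cast
  field_simp

/-- The mean of `b ^ |T|`. -/
theorem mean_pow {P : Finset ℕ} (a : ℝ) :
    ∑ T ∈ P.powerset, pi P T * (1 + a) ^ T.card = ∏ q ∈ P, (1 + a / q) := by
  have e := prod_add (fun q : ℕ => (q : ℝ)⁻¹ * (1 + a)) (fun q : ℕ => 1 - (q : ℝ)⁻¹) P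
  rw [← prod_congr rfl fun (q : ℕ) (_ : q ∈ P) =>
    (by ring : (q : ℝ)⁻¹ * (1 + a) + (1 - (q : ℝ)⁻¹) = 1 + a / q), e]
  refine sum_congr rfl fun T _ => ?_
  rw [prod_mul_distrib, prod_const, pi]
  ring

/-- A product of distinct primes of `P` divides `n` if and only if each of them does. -/
theorem prod_dvd_iff {P e : Finset ℕ} (h : ∀ q ∈ P, q.Prime) (he : e ⊆ P) (n : ℕ) :
    (∏ q ∈ e, q) ∣ n ↔ e ⊆ dv P n := by
  constructor
  · exact fun hd q hq => mem_filter.2 ⟨he hq, (dvd_prod_of_mem _ hq).trans hd⟩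
  · intro hs
    exact Finset.prod_primes_dvd n (fun q hq => (h q (he hq)).prime)
      fun q hq => (mem_filter.1 (hs hq)).2

end Pool.Agent.MP_ca0a54_nt.H29S
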