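import Pool.Agent.MP_ca0a54_nt.H29S.Basic

/-! The second moment of the weight of a window under the size biased measure. -/

open Finset

namespace Pool.Agent.MP_ca0a54_nt.H29S

open Pool.Agent.MP_ca0a54_nt.H78M

/-- The window. -/
def wn (y s : ℝ) : Prop := y ≤ s ∧ s ≤ y + 1

noncomputable instance (y s : ℝ) : Decidable (wn y s) := Classical.dec _

/-- The weight of the subsets of `T` in the window. -/
noncomputable def Xw (a y : ℝ) (T : Finset ℕ) : ℝ :=
  ∑ e ∈ T.powerset, if wn y (lg e) then a ^ e.card else 0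

namespace SM

theorem Xw_eq (a y : ℝ) {P T : Finset ℕ} (hT : T ∈ P.powerset) :
    Xw a y T = ∑ e ∈ P.powerset, if e ⊆ T then (if wn y (lg e) then a ^ e.card else 0) else 0 := by
  conv_rhs => rw [← sum_filter]
  refine sum_congr ?_ fun _ _ => rfl
  ext e
  simp only [mem_filter, mem_powerset]
  exact ⟨fun h => ⟨h.trans (mem_powerset.1 hT), h⟩, fun h => h.2⟩

/-- The summand over triples. -/
noncomputable def tr (b θ y : ℝ) (z : Finset ℕ × Finset ℕ × Finset ℕ) : ℝ :=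
  (if wn y (lg z.1 + lg z.2.1) then W b z.1 * W θ z.2.1 else 0) *
    (if |lg z.2.2 - lg z.2.1| ≤ 1 then W θ z.2.2 else 0)

theorem pair {a β : ℝ} (y : ℝ) (e e' : Finset ℕ) (h0 : 0 ≤ tr (a * a * β) (a * β) y
      (e ∩ e', e \ e', e' \ e)) :
    (if wn y (lg e) then a ^ e.card else 0) * (if wn y (lg e') then a ^ e'.card else 0) *
      W β (e ∪ e') ≤ tr (a * a * β) (a * β) y (e ∩ e', e \ e', e' \ e) := by
  have d1 : Disjoint (e ∩ e') (e \ e') := disjoint_sdiff_inter e e' |>.symm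
  have d2 : Disjoint (e ∩ e') (e' \ e) := by
    rw [inter_comm]
    exact disjoint_sdiff_inter e' e |>.symm
  have u1 : e ∩ e' ∪ e \ e' = e := by rw [union_comm, sdiff_union_inter]
  have u2 : e ∩ e' ∪ e' \ e = e' := by rw [union_comm, inter_comm, sdiff_union_inter]
  have l1 : lg e = lg (e ∩ e') + lg (e \ e') := by rw [← lg_union d1, u1]
  have l2 : lg e' = lg (e ∩ e') + lg (e' \ e) := by rw [← lg_union d2, u2]
  have c1 : e.card = (e ∩ e').card + (e \ e').card := by rw [← card_union_of_disjoint d1, u1]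
  have c2 : e'.card = (e ∩ e').card + (e' \ e).card := by rw [← card_union_of_disjoint d2, u2]
  have w1 : W β (e ∪ e') = W β (e ∩ e') * W β (e \ e') * W β (e' \ e) := by
    rw [← W_union β d1, u1, ← W_union β disjoint_sdiff, union_sdiff_self_eq_union]
  by_cases h1 : wn y (lg e)
  · by_cases h2 : wn y (lg e')
    · have h3 : |lg (e' \ e) - lg (e \ e')| ≤ 1 :=
        abs_le.2 ⟨by linarith [h1.2, h2.1], by linarith [h1.1, h2.2]⟩
      unfold tr
      simp only
      rw [if_pos h1, if_pos h2, if_pos (l1 ▸ h1), if_pos h3, w1, W_mul (a * a), W_mul a, W_mul a,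
        c1, c2, mul_pow]
      exact le_of_eq (by ring)
    · rw [if_neg h2, mul_zero, zero_mul]
      exact h0
  · rw [if_neg h1, zero_mul, zero_mul]
    exact h0

theorem tr_nonneg {b θ : ℝ} (hb : 0 ≤ b) (hθ : 0 ≤ θ) (y : ℝ) {P : Finset ℕ}
    (h : ∀ q ∈ P, 2 ≤ q) {z : Finset ℕ × Finset ℕ × Finset ℕ}
    (hz : z ∈ P.powerset ×ˢ P.powerset ×ˢ P.powerset) : 0 ≤ tr b θ y z := by
  obtain ⟨a1, a2⟩ := mem_product.1 hz
  obtain ⟨a2, a3⟩ := mem_product.1 a2
  have := W_nonneg' hb h a1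
  have := W_nonneg' hθ h a2
  have := W_nonneg' hθ h a3
  unfold tr
  split_ifs <;> positivity

theorem triple {a β : ℝ} (ha : 0 ≤ a) (hβ : 0 ≤ β) (y : ℝ) {P : Finset ℕ}
    (h : ∀ q ∈ P, 2 ≤ q) :
    ∑ T ∈ P.powerset, pi P T * β ^ T.card * Xw a y T ^ 2 ≤ Real.exp (-((1 - β) * Jm P)) *
      ∑ z ∈ P.powerset ×ˢ P.powerset ×ˢ P.powerset, tr (a * a * β) (a * β) y z := by
  set α : Finset ℕ → ℝ := fun e => if wn y (lg e) then a ^ e.card else 0 with hα
  have α0 : ∀ e, 0 ≤ α e := fun e => by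
    simp only [hα]
    split_ifs <;> positivity
  have e1 : ∀ T ∈ P.powerset, pi P T * β ^ T.card * Xw a y T ^ 2 =
      ∑ z ∈ P.powerset ×ˢ P.powerset, α z.1 * α z.2 *
        (if z.1 ∪ z.2 ⊆ T then pi P T * β ^ T.card else 0) := by
    intro T hT
    rw [Xw_eq a y hT, sq, sum_mul_sum, ← sum_product', mul_sum]
    refine sum_congr rfl fun z _ => ?_
    simp only [union_subset_iff]
    by_cases h1 : z.1 ⊆ T <;> by_cases h2 : z.2 ⊆ T <;> simp [h1, h2, hα, mul_comm]
  rw [sum_congr rfl e1, sum_comm, mul_sum]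
  have hm : ∀ z ∈ P.powerset ×ˢ P.powerset, (z.1 ∩ z.2, z.1 \ z.2, z.2 \ z.1) ∈
      P.powerset ×ˢ P.powerset ×ˢ P.powerset := by
    intro z hz
    obtain ⟨a1, a2⟩ := mem_product.1 hz
    rw [mem_powerset] at a1 a2
    exact mem_product.2 ⟨mem_powerset.2 (inter_subset_left.trans a1), mem_product.2
      ⟨mem_powerset.2 (sdiff_subset.trans a1), mem_powerset.2 (sdiff_subset.trans a2)⟩⟩
  refine sum_le_inj (fun z => (z.1 ∩ z.2, z.1 \ z.2, z.2 \ z.1)) ?_ hm ?_ ?_
  · rintro ⟨e, e'⟩ - ⟨f, f'⟩ - hh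
    simp only [Prod.mk.injEq] at hh ⊢
    obtain ⟨b1, b2, b3⟩ := hh
    constructor
    · rw [← sdiff_union_inter e e', b1, b2, sdiff_union_inter]
    · rw [← sdiff_union_inter e' e, inter_comm, b1, b3, inter_comm, sdiff_union_inter]
  · intro z hz
    obtain ⟨a1, a2⟩ := mem_product.1 hz
    rw [← mul_sum]
    have h1 := expect hβ h (union_subset (mem_powerset.1 a1) (mem_powerset.1 a2))
    refine (mul_le_mul_of_nonneg_left h1 (mul_nonneg (α0 _) (α0 _))).trans ?_
    rw [mul_left_comm]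
    exact mul_le_mul_of_nonneg_left
      (pair y _ _ (tr_nonneg (by positivity) (by positivity) y h (hm z hz))) (Real.exp_pos _).le
  · exact fun z hz => mul_nonneg (Real.exp_pos _).le
      (tr_nonneg (by positivity) (by positivity) y h hz)

/-- The primes of `P` up to a level. -/
noncomputable def lo (P : Finset ℕ) (t : ℝ) : Finset ℕ := P.filter fun q => Real.log q ≤ t

theorem sum_lo (P : Finset ℕ) (t : ℝ) {f : Finset ℕ → ℝ} (hf : ∀ T, t < lg T → f T = 0) :
    ∑ T ∈ P.powerset, f T = ∑ T ∈ (lo P t).powerset, f T := by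
  refine (sum_subset (powerset_mono.2 (filter_subset _ _)) fun T hT hT' => hf T ?_).symm
  by_contra hc
  exact hT' (mem_powerset.2 fun q hq =>
    mem_filter.2 ⟨mem_powerset.1 hT hq, (log_le_lg hq).trans (not_lt.1 hc)⟩)

/-- The weight of the sets of nearly the same size. -/
noncomputable def rho (θ : ℝ) (P : Finset ℕ) (s : ℝ) : ℝ :=
  ∑ T ∈ P.powerset, if |lg T - s| ≤ 1 then W θ T else 0

theorem rho_le {K θ : ℝ} (hK : Win K) (hK1 : 1 ≤ K) (hθ : 0 ≤ θ) {P : Finset ℕ}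
    (h : ∀ q ∈ P, q.Prime) {s t : ℝ} (h2 : 2 ≤ s) (h3 : s ≤ t) (h4 : t ≤ 4 * s) :
    rho θ P s ≤ 8 * θ * K / t * Zt θ (lo P (2 * t)) := by
  have hl : ∀ q ∈ lo P (2 * t), q.Prime := fun q hq => h q (mem_filter.1 hq).1
  have hz := Zt_nonneg hθ fun q hq => (hl q hq).two_le
  rw [rho, sum_lo P (2 * t) fun T hT => if_neg fun hh => by linarith [(abs_le.1 hh).2]]
  refine le_trans (le_of_eq (sum_congr rfl fun T _ => if_congr ?_ rfl rfl))
    ((win_le hK hθ hl (by linarith : 0 < s - 1)).trans (mul_le_mul_of_nonneg_right ?_ hz))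
  · rw [abs_le]
    exact ⟨fun hh => ⟨by linarith [hh.1], by linarith [hh.2]⟩,
      fun hh => ⟨by linarith [hh.1], by linarith [hh.2]⟩⟩
  · rw [div_le_div_iff₀ (by linarith) (by linarith)]
    have : 0 ≤ θ * K := by positivity
    nlinarith

theorem rho_zero {θ : ℝ} {P : Finset ℕ} (h : ∀ q ∈ P, (1 : ℝ) < Real.log q) :
    rho θ P 0 = 1 := by
  rw [rho, sum_eq_single_of_mem ∅ (empty_mem_powerset P)]
  · simp [lg, W]
  · intro T hT hne
    obtain ⟨q, hq⟩ := nonempty_iff_ne_empty.2 hne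
    refine if_neg fun hh => ?_
    linarith [(abs_le.1 hh).2, log_le_lg hq, h q (mem_powerset.1 hT hq)]

/-- A window for the product of two sets. -/
theorem win2 {K u v : ℝ} (hK : Win K) (hu : 0 ≤ u) (hv : 0 ≤ v) {P P' : Finset ℕ}
    (h : ∀ q ∈ P, q.Prime) (h' : ∀ q ∈ P', q.Prime) {y : ℝ} (hy : 0 < y) :
    ∑ g ∈ P.powerset, ∑ T ∈ P'.powerset, (if wn y (lg g + lg T) then W u g * W v T else 0) ≤
      (u + v) * K / y * (Zt u P * Zt v P') := by
  have h2 : ∀ q ∈ P, 2 ≤ q := fun q hq => (h q hq).two_le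
  have h2' : ∀ q ∈ P', 2 ≤ q := fun q hq => (h' q hq).two_le
  have a1 : ∑ T ∈ P'.powerset, W v T * ∑ g ∈ P.powerset,
      W u g * (if y - lg T ≤ lg g ∧ lg g ≤ y - lg T + 2 then lg g else 0) ≤
      ∑ T ∈ P'.powerset, W v T * (u * K * Zt u P) :=
    sum_le_sum fun T hT => mul_le_mul_of_nonneg_left (pin_win hK hu h _) (W_nonneg' hv h2' hT)
  have a2 : ∑ g ∈ P.powerset, W u g * ∑ T ∈ P'.powerset,
      W v T * (if y - lg g ≤ lg T ∧ lg T ≤ y - lg g + 2 then lg T else 0) ≤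
      ∑ g ∈ P.powerset, W u g * (v * K * Zt v P') :=
    sum_le_sum fun g hg => mul_le_mul_of_nonneg_left (pin_win hK hv h' _) (W_nonneg' hu h2 hg)
  rw [← sum_mul] at a1 a2
  simp only [mul_sum] at a1 a2
  rw [sum_comm] at a1
  have a3 := add_le_add a1 a2
  rw [← sum_add_distrib] at a3
  rw [div_mul_eq_mul_div, le_div_iff₀ hy, sum_mul]
  refine le_trans (sum_le_sum fun g hg => ?_) (a3.trans (le_of_eq ?_))
  · rw [sum_mul, ← sum_add_distrib]
    refine sum_le_sum fun T hT => ?_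
    have b1 := W_nonneg' hu h2 hg
    have b2 := W_nonneg' hv h2' hT
    have b3 := lg_nonneg g
    have b4 := lg_nonneg T
    by_cases hw : wn y (lg g + lg T)
    · rw [if_pos hw, if_pos ⟨by linarith [hw.1], by linarith [hw.2]⟩,
        if_pos ⟨by linarith [hw.1], by linarith [hw.2]⟩]
      nlinarith [mul_le_mul_of_nonneg_left hw.1 (mul_nonneg b1 b2)]
    · rw [if_neg hw, zero_mul]
      split_ifs <;> positivity
  · unfold Zt
    ring

theorem cls {t : ℕ → ℝ} {s : ℝ} (h0 : s ≤ t 0) (n : ℕ) (hn : t n < s) :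
    ∃ j < n, t (j + 1) < s ∧ s ≤ t j := by
  induction n with
  | zero => exact absurd hn (not_lt.2 h0)
  | succ n ih =>
    rcases lt_or_ge (t n) s with h | h
    · obtain ⟨j, hj, hh⟩ := ih h
      exact ⟨j, hj.trans (Nat.lt_succ_self n), hh⟩
    · exact ⟨n, Nat.lt_succ_self n, hn, h⟩

theorem cut {K u v : ℝ} (hK : Win K) (hu : 0 ≤ u) (hv : 0 ≤ v) {P : Finset ℕ}
    (h : ∀ q ∈ P, q.Prime) {y t t' : ℝ} (hy : 0 < y) (ht : t ≤ t') :
    ∑ g ∈ P.powerset, ∑ T ∈ P.powerset, (if wn y (lg g + lg T) then W u g * W v T else 0) *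
      (if lg T ≤ t then 1 else 0) ≤ (u + v) * K / y * (Zt u P * Zt v (lo P t')) := by
  have hl : ∀ q ∈ lo P t', q.Prime := fun q hq => h q (mem_filter.1 hq).1
  refine le_trans (sum_le_sum fun g hg => ?_) (win2 hK hu hv h hl hy)
  rw [sum_lo P t' fun T hT => by rw [if_neg (not_le.2 (ht.trans_lt hT)), mul_zero]]
  refine sum_le_sum fun T hT => ?_
  have b1 := W_nonneg' hu (fun q hq => (h q hq).two_le) hg
  have b2 := W_nonneg' hv (fun q hq => (hl q hq).two_le) hT
  split_ifs <;> simp [mul_nonneg b1 b2]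

/-- The form of the second theorem of Mertens that is used. -/
def Me (C : ℝ) : Prop := ∀ A B : ℝ, 1 ≤ A → A ≤ B → |Jm (pr A B) - Real.log (B / A)| ≤ C

theorem me : ∃ C : ℝ, 0 ≤ C ∧ Me C := by
  obtain ⟨C, h0, h, -⟩ := mer
  exact ⟨C, h0, fun A B hA hAB => (h A B (by linarith) hAB).trans (div_le_self h0 hA)⟩

theorem prime_pr {A x : ℝ} : ∀ q ∈ pr A x, q.Prime := fun _ hq => (mem_pr.1 hq).1

theorem Zt_sq {C θ A x : ℝ} (hC : 0 ≤ C) (hM : Me C) (h1 : 3 / 4 ≤ θ) (h2 : θ ≤ 1) (hA : 1 ≤ A)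
    (hx : A ≤ x) (j : ℕ) (hj : A ≤ 4 * x / 4 ^ j) :
    Zt θ (lo (pr A x) (2 * (4 * x / 4 ^ j))) * Zt θ (lo (pr A x) (2 * (4 * x / 4 ^ j))) ≤
      Real.exp (2 * θ * Jm (pr A x)) * Real.exp (4 * C + 18) * (1 / 8) ^ j := by
  have hl : ∀ q ∈ lo (pr A x) (2 * (4 * x / 4 ^ j)), 2 ≤ q := fun q hq =>
    (prime_pr q (mem_filter.1 hq).1).two_le
  have a1 := Zt_le (by linarith : 0 ≤ θ) hl
  have a2 : Jm (lo (pr A x) (2 * (4 * x / 4 ^ j))) ≤ Jm (pr A (2 * (4 * x / 4 ^ j))) :=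
    Jm_mono fun q hq => mem_pr.2 ⟨prime_pr q (mem_filter.1 hq).1,
      (mem_pr.1 (mem_filter.1 hq).1).2.1, (mem_filter.1 hq).2⟩
  have a3 := (abs_le.1 (hM A (2 * (4 * x / 4 ^ j)) hA (by linarith))).2
  have a4 := (abs_le.1 (hM A x hA hx)).1
  have x0 : 0 < x := by linarith
  have e1 : Real.log (2 * (4 * x / 4 ^ j) / A) =
      Real.log (x / A) + Real.log 8 - j * (2 * Real.log 2) := by
    have : 2 * (4 * x / 4 ^ j) / A = x / A * 8 / (2 ^ 2) ^ j := by
      rw [show (2 : ℝ) ^ 2 = 4 by norm_num]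
      ring
    rw [this, Real.log_div (by positivity) (by positivity), Real.log_mul (by positivity)
      (by positivity), Real.log_pow, Real.log_pow]
    norm_num
  have e2 : (1 / 8 : ℝ) ^ j = Real.exp (-(j * (3 * Real.log 2))) := by
    have : (8 : ℝ) = Real.exp (3 * Real.log 2) := by
      rw [show (3 : ℝ) * Real.log 2 = Real.log (2 ^ 3) by rw [Real.log_pow]; norm_num,
        Real.exp_log (by norm_num)]
      norm_num
    rw [Real.exp_neg, Real.exp_nat_mul, ← this, one_div, inv_pow]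
  have l8 : Real.log 8 ≤ 7 := by linarith [Real.log_le_sub_one_of_pos (by norm_num : (0 : ℝ) < 8)]
  have l2 : 0 ≤ (j : ℝ) * Real.log 2 := mul_nonneg (Nat.cast_nonneg j) (Real.log_nonneg one_le_two)
  refine (mul_le_mul a1 a1 (Zt_nonneg (by linarith) hl) (Real.exp_pos _).le).trans ?_
  rw [e2, ← Real.exp_add, ← Real.exp_add, ← Real.exp_add]
  refine Real.exp_le_exp.2 ?_
  have a5 : Jm (lo (pr A x) (2 * (4 * x / 4 ^ j))) ≤
      Jm (pr A x) + 2 * C + 7 - 2 * (j * Real.log 2) := by linarith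
  nlinarith [mul_le_mul_of_nonneg_left a5 (by linarith : 0 ≤ θ),
    mul_le_mul_of_nonneg_right h1 l2, mul_le_mul_of_nonneg_right h2 hC]

theorem atom {C θ A x : ℝ} (hC : 0 ≤ C) (hM : Me C) (h1 : 3 / 4 ≤ θ) (hA : 1 ≤ A)
    (hx : A ^ 3 ≤ x) (hx' : A ≤ x) :
    x ≤ Real.exp (2 * θ * Jm (pr A x)) * Real.exp (4 * C + 18) := by
  have x0 : 0 < x := by linarith
  have a4 := (abs_le.1 (hM A x hA hx')).1
  have a5 : 3 * Real.log A ≤ Real.log x := by
    have := Real.log_le_log (by positivity) hx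
    rwa [Real.log_pow] at this
  rw [Real.log_div x0.ne' (by linarith)] at a4
  rw [← Real.exp_add]
  refine (Real.log_le_iff_le_exp x0).1 ?_
  nlinarith [mul_le_mul_of_nonneg_right h1 (Jm_nonneg (pr A x))]

theorem main {K C b θ A x y : ℝ} (hK : Win K) (hK1 : 1 ≤ K) (hC : 0 ≤ C) (hM : Me C) (hb : 0 ≤ b)
    (h1 : 3 / 4 ≤ θ) (h2 : θ ≤ 1) (hA : 2 ≤ A) (hx : A ^ 3 ≤ x) (hy : x / 2 ≤ y)
    (hy' : y ≤ 2 * x) :
    ∑ z ∈ (pr A x).powerset ×ˢ (pr A x).powerset ×ˢ (pr A x).powerset, tr b θ y z ≤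
      10 * (b + θ) * K ^ 2 / x ^ 2 * (Zt b (pr A x) *
        (Real.exp (2 * θ * Jm (pr A x)) * Real.exp (4 * C + 18))) := by
  have hx' : A ≤ x := le_trans (le_self_pow₀ (by linarith) three_ne_zero) hx
  have x0 : 0 < x := by linarith
  have y0 : 0 < y := by linarith
  have θ0 : 0 ≤ θ := by linarith
  obtain ⟨n, hn⟩ := pow_unbounded_of_one_lt (4 * x / A) (by norm_num : (1 : ℝ) < 4)
  set P := pr A x with hP
  set t : ℕ → ℝ := fun j => 4 * x / 4 ^ j with ht
  set E := Real.exp (2 * θ * Jm P) * Real.exp (4 * C + 18) with hE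
  set c : ℕ → ℝ := fun j => if A ≤ t j then 8 * θ * K / t j * Zt θ (lo P (2 * t j)) else 0 with hc
  set w : Finset ℕ → Finset ℕ → ℝ := fun g T => if wn y (lg g + lg T) then W b g * W θ T else 0
    with hw
  have hp : ∀ q ∈ P, q.Prime := prime_pr
  have hp2 : ∀ q ∈ P, 2 ≤ q := fun q hq => (hp q hq).two_le
  have t0 : ∀ j, 0 < t j := fun j => by positivity
  have z0 : ∀ s, 0 ≤ Zt θ (lo P s) := fun s => Zt_nonneg θ0 fun q hq => hp2 q (mem_filter.1 hq).1
  have zb := Zt_nonneg hb hp2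
  have c0 : ∀ j, 0 ≤ c j := fun j => by
    have := t0 j
    have := z0 (2 * t j)
    simp only [hc]
    split_ifs <;> positivity
  have e1 : ∑ z ∈ P.powerset ×ˢ P.powerset ×ˢ P.powerset, tr b θ y z =
      ∑ g ∈ P.powerset, ∑ T ∈ P.powerset, w g T * rho θ P (lg T) := by
    simp only [sum_product, rho, mul_sum]
    rfl
  have pt : ∀ g ∈ P.powerset, ∀ T ∈ P.powerset, w g T * rho θ P (lg T) ≤
      w g T * (if lg T ≤ A then 1 else 0) +
        ∑ j ∈ range n, c j * (w g T * (if lg T ≤ t j then 1 else 0)) := by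
    intro g hg T hT
    by_cases hh : wn y (lg g + lg T)
    · have w0 : 0 ≤ w g T := by
        simp only [hw, if_pos hh]
        exact mul_nonneg (W_nonneg' hb hp2 hg) (W_nonneg' θ0 hp2 hT)
      have s0 : ∀ j ∈ range n, 0 ≤ c j * (w g T * (if lg T ≤ t j then 1 else 0)) := fun j _ =>
        mul_nonneg (c0 j) (mul_nonneg w0 (by split_ifs <;> norm_num))
      rcases T.eq_empty_or_nonempty with rfl | ⟨q, hq⟩
      · have l0 : lg ∅ = 0 := sum_empty
        rw [l0, rho_zero fun q hq => by linarith [(mem_pr.1 hq).2.1], if_pos (by linarith)]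
        rw [l0] at s0
        linarith [sum_nonneg s0]
      · have l1 : A < lg T := (mem_pr.1 (mem_powerset.1 hT hq)).2.1.trans_le (log_le_lg hq)
        have l2 : lg T ≤ t 0 := by
          simp only [ht, pow_zero, div_one]
          linarith [hh.2, lg_nonneg g]
        have l3 : t n < lg T := by
          refine lt_trans ?_ l1
          rw [div_lt_iff₀ (by linarith)] at hn
          simp only [ht]
          rw [div_lt_iff₀ (by positivity)]
          linarith
        obtain ⟨j, hj, l4, l5⟩ := cls l2 n l3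
        have l6 : t j = 4 * t (j + 1) := by
          simp only [ht, pow_succ]
          field_simp
        have l7 := rho_le hK hK1 θ0 hp (by linarith : 2 ≤ lg T) l5 (by linarith)
        have l8 := single_le_sum s0 (mem_range.2 hj)
        rw [if_pos l5, mul_one] at l8
        simp only [hc, if_pos (l1.le.trans l5)] at l8
        rw [if_neg (not_le.2 l1), mul_zero, zero_add]
        refine le_trans ?_ l8
        rw [mul_comm]
        exact mul_le_mul_of_nonneg_right l7 w0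
    · simp [hw, hh]
  have k1 : (b + θ) * K / y ≤ 2 * ((b + θ) * K) / x := by
    rw [div_le_div_iff₀ y0 x0]
    have : 0 ≤ (b + θ) * K := by positivity
    nlinarith
  have at1 : ∑ g ∈ P.powerset, ∑ T ∈ P.powerset, w g T * (if lg T ≤ A then 1 else 0) ≤
      2 * (b + θ) * K ^ 2 / x ^ 2 * (Zt b P * E) := by
    have e0 : lo P A = ∅ := filter_eq_empty_iff.2 fun q hq => not_le.2 (mem_pr.1 hq).2.1
    have a1 := cut hK hb θ0 hp y0 (le_refl A)
    have e2 : Zt θ ∅ = 1 := by simp [Zt, W]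
    rw [e0, e2, mul_one] at a1
    refine a1.trans ((mul_le_mul_of_nonneg_right k1 zb).trans ?_)
    have a2 : x ≤ E := atom hC hM h1 (by linarith) hx hx'
    have a3 : x ≤ K * E := a2.trans (le_mul_of_one_le_left (by positivity) hK1)
    have a4 := mul_le_mul_of_nonneg_left a3
      (by positivity : 0 ≤ 2 * ((b + θ) * K) / x ^ 2 * Zt b P)
    refine le_trans (le_of_eq ?_) (a4.trans (le_of_eq (by ring)))
    field_simp
  have at2 : ∀ j ∈ range n, c j * ∑ g ∈ P.powerset, ∑ T ∈ P.powerset,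
      w g T * (if lg T ≤ t j then 1 else 0) ≤
      4 * (b + θ) * K ^ 2 / x ^ 2 * (Zt b P * E) * (1 / 2) ^ j := by
    intro j _
    refine (mul_le_mul_of_nonneg_left (cut hK hb θ0 hp y0
      (by linarith [t0 j] : t j ≤ 2 * t j)) (c0 j)).trans ?_
    simp only [hc]
    split_ifs with hj
    · have a1 := Zt_sq hC hM h1 h2 (by linarith) hx' j hj
      have a2 : 8 * θ * K / t j ≤ 2 * K * 4 ^ j / x := by
        have : 8 * θ * K / t j = θ * (2 * K * 4 ^ j / x) := by
          simp only [ht]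
          field_simp
          norm_num
        rw [this]
        exact mul_le_of_le_one_left (by positivity) h2
      have a3 := mul_le_mul (mul_le_mul a2 k1 (by positivity) (by positivity)) a1
        (mul_nonneg (z0 _) (z0 _)) (by positivity)
      have a4 := mul_le_mul_of_nonneg_right a3 zb
      refine le_trans (le_of_eq (by ring)) (a4.trans (le_of_eq ?_))
      have e3 : (1 / 2 : ℝ) ^ j = 4 ^ j * (1 / 8) ^ j := by
        rw [← mul_pow]
        norm_num
      rw [e3]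
      field_simp
      ring
    · rw [zero_mul]
      positivity
  rw [e1]
  refine (sum_le_sum fun g hg => sum_le_sum fun T hT => pt g hg T hT).trans ?_
  simp only [sum_add_distrib]
  have e4 : ∑ g ∈ P.powerset, ∑ T ∈ P.powerset, ∑ j ∈ range n,
      c j * (w g T * (if lg T ≤ t j then 1 else 0)) = ∑ j ∈ range n, c j * ∑ g ∈ P.powerset,
      ∑ T ∈ P.powerset, w g T * (if lg T ≤ t j then 1 else 0) := by
    simp only [mul_sum]
    rw [sum_comm (s := range n)]
    exact sum_congr rfl fun g _ => sum_comm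
  have a5 := sum_le_sum at2
  rw [← mul_sum] at a5
  have a6 := mul_le_mul_of_nonneg_left (sum_geometric_two_le n)
    (by positivity : 0 ≤ 4 * (b + θ) * K ^ 2 / x ^ 2 * (Zt b P * E))
  rw [e4]
  refine (add_le_add at1 (a5.trans a6)).trans (le_of_eq (by ring))

end SM

/-- The second moment of the weight of a window. -/
theorem sm {a : ℝ} (ha : 3 ≤ a) : ∃ C : ℝ, 0 < C ∧ ∀ A x y : ℝ, 2 ≤ A → A ^ 3 ≤ x → x / 2 ≤ y →
    y ≤ 2 * x → ∑ T ∈ (pr A x).powerset, pi (pr A x) T * ((1 + a) ^ T.card)⁻¹ * Xw a y T ^ 2 ≤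
      C / x ^ 2 * ∏ q ∈ pr A x, (1 + a / q) := by
  obtain ⟨K, hK1, hK⟩ := win
  obtain ⟨C, hC, hM⟩ := SM.me
  refine ⟨10 * a * K ^ 2 * (Real.exp (2 * a) * Real.exp (4 * C + 18) * Real.exp (a ^ 2)),
    by positivity, fun A x y hA hx hy hy' => ?_⟩
  have hp2 : ∀ q ∈ pr A x, 2 ≤ q := fun q hq => (SM.prime_pr q hq).two_le
  have a0 : 0 ≤ a := by linarith
  have e1 : 1 - (1 + a)⁻¹ = a * (1 + a)⁻¹ := by
    field_simp
    ring
  have e2 : a * a * (1 + a)⁻¹ + a * (1 + a)⁻¹ = a := by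
    field_simp
    ring
  have b0 : 0 ≤ (1 + a)⁻¹ := by positivity
  have b1 : (1 + a)⁻¹ ≤ 1 / 4 := by
    rw [inv_eq_one_div]
    exact one_div_le_one_div_of_le (by norm_num) (by linarith)
  have h1 := SM.triple a0 b0 y hp2
  have h2 := SM.main (b := a * a * (1 + a)⁻¹) (θ := a * (1 + a)⁻¹) hK hK1 hC hM (by positivity)
    (by linarith) (by linarith) hA hx hy hy'
  have h3 := Zt_le (u := a * a * (1 + a)⁻¹) (by positivity) hp2
  have h4 := exp_le_prod a0 hp2
  simp only [← inv_pow]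
  rw [e1] at h1
  rw [e2] at h2
  have t0 : 0 ≤ a * (1 + a)⁻¹ := by positivity
  generalize a * a * (1 + a)⁻¹ = b at *
  generalize a * (1 + a)⁻¹ = θ at *
  have h5 : Real.exp (-(θ * Jm (pr A x))) * (Real.exp (b * Jm (pr A x) + 2 * b) *
      Real.exp (2 * θ * Jm (pr A x))) ≤ Real.exp (a * Jm (pr A x)) * Real.exp (2 * a) := by
    rw [← Real.exp_add, ← Real.exp_add, ← Real.exp_add, ← e2]
    exact Real.exp_le_exp.2 (by linarith)
  have k0 : 0 ≤ 10 * a * K ^ 2 / x ^ 2 := by positivity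
  have h6 := mul_le_mul_of_nonneg_left (h2.trans (mul_le_mul_of_nonneg_left
    (mul_le_mul_of_nonneg_right h3 (by positivity)) k0)) (Real.exp_pos (-(θ * Jm (pr A x)))).le
  have h7 := mul_le_mul_of_nonneg_left (h5.trans (mul_le_mul_of_nonneg_right h4
    (Real.exp_pos _).le)) (mul_nonneg k0 (Real.exp_pos (4 * C + 18)).le)
  exact (h1.trans h6).trans (le_trans (le_of_eq (by ring)) (h7.trans (le_of_eq (by ring))))

end Pool.Agent.MP_ca0a54_nt.H29S
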